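import Pool.Agent.MP_6b3e96_gt.H75.Weak
import Pool.Agent.MP_6b3e96_gt.H77.Spec

/-! The fixed point of the semilinear equation. -/

open scoped Real ContDiff BoundedContinuousFunction
open Set MeasureTheory Filter

noncomputable section

namespace Pool.Agent.MP_6b3e96_gt.H75

open Pool.Agent.MP_6b3e96_gt.H77

/-- admissible right hand sides -/
structure Good (H : ℝ × ℝ → ℝ) (B : ℝ) : Prop where
  int : Integrable H (mu.prod mu)
  sm : Summable fun q => |hat H q| * wt q
  le : ∑' q, |hat H q| * wt q ≤ B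

theorem Good.sm' {H : ℝ × ℝ → ℝ} {B : ℝ} (h : Good H B) : Summable fun q => |hat H q / ev q| := by
  simp only [abs_coef]; exact h.sm

theorem Good.abs_sol {H : ℝ × ℝ → ℝ} {B : ℝ} (h : Good H B) (w : ℂ) : |sol H w| ≤ B := by
  refine (abs_ser h.sm' _).trans ?_
  simp only [abs_coef]; exact h.le

theorem Good.continuous_sol {H : ℝ × ℝ → ℝ} {B : ℝ} (h : Good H B) : Continuous (sol H) :=
  (continuous_ser h.sm').comp (by fun_prop)

theorem Good.sol_sub {H G : ℝ × ℝ → ℝ} {B C : ℝ} (h : Good H B) (g : Good G C) (w : ℂ) :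
    sol H w - sol G w = sol (fun p => H p - G p) w := by
  simp only [sol, ser]
  rw [← Summable.tsum_sub
    (Summable.of_norm_bounded h.sm' fun q => norm_term (fun q => hat H q / ev q) q (w.re, w.im))
    (Summable.of_norm_bounded g.sm' fun q => norm_term (fun q => hat G q / ev q) q (w.re, w.im))]
  simp only [hat_sub h.int g.int, sub_div, sub_mul]

theorem sol_fold (H : ℝ × ℝ → ℝ) (w : ℂ) : sol H (fold w) = sol H w := by
  simp only [sol, ser, md, fold, cs_fold]

theorem sol_swp {H : ℝ × ℝ → ℝ} (h : ∀ p, H p.swap = H p) (w : ℂ) : sol H (swp w) = sol H w := by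
  have e : ∀ q, hat H q.swap = hat H q := fun q => by
    rw [hat, hat, ← integral_prod_swap]
    simp only [h, md, Prod.fst_swap, Prod.snd_swap, mul_comm]
  simp only [sol, ser]
  rw [← (Equiv.prodComm ℤ ℤ).tsum_eq]
  refine tsum_congr fun q => ?_
  simp only [Equiv.prodComm_apply, e, ev, md, swp, Prod.fst_swap, Prod.snd_swap]
  ring

theorem mem_Sq {s t : ℝ} (hs : s ∈ Ioc (0 : ℝ) 1) (ht : t ∈ Ioc (0 : ℝ) 1) :
    cx (s, t) ∈ Sq ∧ cx (s, t) ≠ 0 :=
  ⟨⟨⟨hs.1.le, hs.2⟩, ⟨ht.1.le, ht.2⟩⟩, fun h => hs.1.ne' (congrArg Complex.re h)⟩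

theorem Good.add {H G : ℝ × ℝ → ℝ} {B C : ℝ} (h : Good H B) (g : Good G C) :
    Good (fun p => H p + G p) (B + C) := by
  have h1 : ∀ q, |hat (fun p => H p + G p) q| * wt q ≤ |hat H q| * wt q + |hat G q| * wt q :=
    fun q => by
      rw [hat_add h.int g.int, ← add_mul]
      exact mul_le_mul_of_nonneg_right (abs_add_le _ _) (wt_nonneg _)
  have h2 := Summable.of_nonneg_of_le (fun q => mul_nonneg (abs_nonneg _) (wt_nonneg _)) h1
    (h.sm.add g.sm)
  refine ⟨h.int.add g.int, h2, (h2.tsum_le_tsum h1 (h.sm.add g.sm)).trans ?_⟩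
  rw [h.sm.tsum_add g.sm]
  exact add_le_add h.le g.le

theorem Good.mono {H : ℝ × ℝ → ℝ} {B C : ℝ} (h : Good H B) (e : B ≤ C) : Good H C :=
  ⟨h.int, h.sm, h.le.trans e⟩

theorem good_of {β : ℂ → ℝ} {a M : ℝ} (ha : 0 ≤ a) (hβ : Measurable β)
    (hβ' : ∀ w ∈ Sq, 0 ≤ β w ∧ β w ≤ M) (hβ2 : ∫ w in Sq, β w ^ 2 ≤ a ^ 2) {h : ℂ → ℝ}
    (hh : Measurable h) {D b : ℝ} (hD : 0 ≤ D) (hb : 0 ≤ b)
    (H : ∀ w ∈ Sq, w ≠ 0 → |h w| ≤ D * β w + b / mx w) :
    Good (fun p => h (cx p)) (0.65 * (D * a) + 4.2 * b) := by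
  have mc := continuous_cx.measurable
  have b1 : Bd (fun p => β (cx p)) M := ⟨hβ.comp mc, fun s hs t ht => by
    have := hβ' _ (mem_Sq hs ht).1
    rw [abs_of_nonneg this.1]; exact this.2⟩
  have bc : Bd (fun _ => D) |D| := ⟨measurable_const, fun _ _ _ _ => le_rfl⟩
  rw [integral_Sq] at hβ2
  obtain ⟨i, s, l⟩ := key (H := fun p => h (cx p)) (a := D * a) (hh.comp mc)
    (bc.mul b1) (by positivity) hb (fun s hs t ht => mul_nonneg hD (hβ' _ (mem_Sq hs ht).1).1)
    (by simp only [mul_pow, integral_const_mul]; gcongr) fun s hs t ht => by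
      have := H _ (mem_Sq hs ht).1 (mem_Sq hs ht).2
      rwa [div_eq_mul_one_div] at this
  exact ⟨i, s, l⟩

theorem good_const {h : ℂ → ℝ} (hh : Measurable h) {η b : ℝ} (hη : 0 ≤ η) (hb : 0 ≤ b)
    (H : ∀ w ∈ Sq, w ≠ 0 → |h w| ≤ η + b / mx w) :
    Good (fun p => h (cx p)) (0.65 * η + 4.2 * b) := by
  have := good_of (β := fun _ => η) (M := η) hη measurable_const (fun _ _ => ⟨hη, le_rfl⟩)
    (by rw [integral_Sq]; simp) hh zero_le_one hb (by simpa only [one_mul] using H)
  rwa [one_mul] at this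

/-- the closed set of admissible functions -/
def Adm (ε : ℝ) : Set (ℂ →ᵇ ℝ) := {v | (∀ w, |v w| ≤ ε) ∧ ∀ w, v (swp w) = v w}

theorem isClosed_Adm (ε : ℝ) : IsClosed (Adm ε) := by
  simp only [Adm, ofPred_and, ofPred_forall]
  exact (isClosed_iInter fun w => isClosed_le (by fun_prop) continuous_const).inter
    (isClosed_iInter fun w => isClosed_eq (by fun_prop) (by fun_prop))

theorem fix : FixStmt := by
  intro g β ε η₀ η₁ a b h0 h1 ha hb hg hβ hβ' hβ2 hz hl hs hc k1 k2
  have hε : 0 ≤ ε := by linarith [show (0 : ℝ) ≤ 0.65 * η₁ + 4.2 * η₀ by positivity]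
  have hm : ∀ d {v : ℂ → ℝ}, Measurable v → Measurable fun w => g d w (v w) := fun d v hv =>
    (hg d).comp (measurable_id.prodMk hv)
  have gd : ∀ d ∈ Icc (-1 : ℝ) 1, ∀ (v v' : ℂ → ℝ) (D : ℝ), Measurable v → Measurable v' →
      (∀ w, |v w| ≤ ε) → (∀ w, |v' w| ≤ ε) → (∀ w, |v w - v' w| ≤ D) →
      Good (fun p => g d (cx p) (v (cx p)) - g d (cx p) (v' (cx p))) (0.6 * D) := by
    intro d hd v v' D mv mv' bv bv' hD
    have hD0 : 0 ≤ D := (abs_nonneg _).trans (hD 0)
    refine (good_of (h := fun w => g d w (v w) - g d w (v' w)) ha hβ hβ' hβ2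
      ((hm d mv).sub (hm d mv')) hD0 (mul_nonneg hD0 hb) fun w hw hw0 => ?_).mono (by nlinarith)
    have h2 : 0 ≤ mx w := hw.1.1.trans (le_max_left _ _)
    have h3 := (hβ' w hw).1
    calc _ ≤ (β w + b / mx w) * |v w - v' w| := hl d hd w hw hw0 _ _ (bv w) (bv' w)
      _ ≤ (β w + b / mx w) * D := mul_le_mul_of_nonneg_left (hD w) (by positivity)
      _ = _ := by ring
  have gv : ∀ d ∈ Icc (-1 : ℝ) 1, ∀ v : ℂ → ℝ, Measurable v → (∀ w, |v w| ≤ ε) →
      Good (fun p => g d (cx p) (v (cx p))) ε := by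
    intro d hd v mv bv
    have h2 := (gd d hd v (fun _ => 0) ε mv measurable_const bv (fun _ => by simpa using hε)
      (by simpa using bv)).add (good_const (hm d (v := fun _ => 0) measurable_const) h1 h0 (hz d hd))
    simp only [sub_add_cancel] at h2
    exact h2.mono (by linarith)
  have ex : ∀ d ∈ Icc (-1 : ℝ) 1, ∃ v : ℂ →ᵇ ℝ, v ∈ Adm ε ∧
      ∀ w, v w = sol (fun p => g d (cx p) (v (cx p))) w := by
    intro d hd
    have hG := fun v : Adm ε => gv d hd v.1 v.1.continuous.measurable v.2.1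
    let T : Adm ε → Adm ε := fun v =>
      ⟨BoundedContinuousFunction.ofNormedAddCommGroup _ (hG v).continuous_sol ε (hG v).abs_sol,
        (hG v).abs_sol, sol_swp fun p => by
          show g d (swp (cx p)) (v.1 (swp (cx p))) = _
          rw [hs, v.2.2]⟩
    have hT : ContractingWith 0.6 T := by
      refine ⟨by norm_num, LipschitzWith.of_dist_le_mul fun v v' => ?_⟩
      refine (BoundedContinuousFunction.dist_le (by positivity)).mpr fun w => ?_
      show |sol _ w - sol _ w| ≤ _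
      rw [(hG v).sol_sub (hG v')]
      exact (gd d hd v.1 v'.1 _ v.1.continuous.measurable v'.1.continuous.measurable v.2.1 v'.2.1
        fun w => BoundedContinuousFunction.dist_coe_le_dist (f := v.1) (g := v'.1) w).abs_sol w
    have := (isClosed_Adm ε).completeSpace_coe
    have : Nonempty (Adm ε) := ⟨⟨0, fun _ => by simpa using hε, fun _ => rfl⟩⟩
    exact ⟨(hT.fixedPoint T).1, (hT.fixedPoint T).2, fun w =>
      (congrArg (fun v : Adm ε => v.1 w) hT.fixedPoint_isFixedPt).symm⟩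
  choose! v hv hfix using ex
  refine ⟨fun d => v d, fun d hd => ⟨(v d).continuous, (hv d hd).1, fun w => ?_, (hv d hd).2,
    fun ψ hψ => ?_⟩, fun e he => ?_⟩
  · exact (hfix d hd _).trans ((sol_fold _ w).trans (hfix d hd w).symm)
  · have hG := gv d hd _ (v d).continuous.measurable (hv d hd).1
    have h := weak hG.int hG.sm hψ
    have e : ∀ w : ℂ, v d (cx (fold1 w.re, fold1 w.im)) = v d w := fun w => by
      rw [hfix d hd, hfix d hd w]; exact sol_fold _ w
    simp only [e, ← hfix d hd] at h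
    exact h
  · obtain ⟨δ, hδ, H⟩ := hc (e / 11) (by positivity)
    refine ⟨δ, hδ, fun d hd d' hd' hdd w => ?_⟩
    have mv := (v d).continuous.measurable
    have mv' := (v d').continuous.measurable
    have h2 := (gd d hd (v d) (v d') _ mv mv' (hv d hd).1 (hv d' hd').1
      fun w => BoundedContinuousFunction.dist_coe_le_dist (f := v d) (g := v d') w).add
      (good_const (h := fun w => g d w (v d' w) - g d' w (v d' w)) ((hm d mv').sub (hm d' mv'))
        le_rfl (show 0 ≤ e / 11 by positivity) fun w hw hw0 => by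
          rw [zero_add]; exact H d hd d' hd' hdd w hw hw0 _ ((hv d' hd').1 w))
    simp only [sub_add_sub_cancel] at h2
    have h3 : dist (v d) (v d') ≤ 0.6 * dist (v d) (v d') + (0.65 * 0 + 4.2 * (e / 11)) := by
      refine (BoundedContinuousFunction.dist_le (by positivity)).mpr fun w => ?_
      rw [Real.dist_eq, hfix d hd, hfix d' hd', (gv d hd _ mv (hv d hd).1).sol_sub
        (gv d' hd' _ mv' (hv d' hd').1)]
      exact h2.abs_sol w
    exact (BoundedContinuousFunction.dist_coe_le_dist (f := v d) (g := v d') w).trans (by linarith)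

end Pool.Agent.MP_6b3e96_gt.H75
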