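import Pool.Agent.MP_6b3e96_gt.H75.Pars

/-! The norm of the solution operator. -/

open scoped Real
open Set MeasureTheory Filter

noncomputable section

namespace Pool.Agent.MP_6b3e96_gt.H75

/-- the shifted eigenvalues -/
def ev (q : ℤ × ℤ) : ℝ := π ^ 2 * ((q.1 : ℝ) ^ 2 + (q.2 : ℝ) ^ 2) - 9 / 5

/-- the weights -/
def wt (q : ℤ × ℤ) : ℝ := 1 / |ev q|

theorem wt_nonneg (q : ℤ × ℤ) : 0 ≤ wt q := by unfold wt; positivity

theorem wt_zero : wt (0, 0) = 5 / 9 := by norm_num [wt, ev]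

theorem one_le_sq {k : ℤ} (hk : k ≠ 0) : (1 : ℝ) ≤ (k : ℝ) ^ 2 := by
  have : (1 : ℤ) ≤ k ^ 2 := Int.add_one_le_of_lt (show 0 < k ^ 2 by positivity)
  exact_mod_cast this

theorem ev_ge {k l : ℤ} (h : k ≠ 0 ∨ l ≠ 0) : 8.06 * ((k : ℝ) ^ 2 + (l : ℝ) ^ 2) ≤ ev (k, l) ∧
    (1 : ℝ) ≤ (k : ℝ) ^ 2 + (l : ℝ) ^ 2 := by
  have h1 : (1 : ℝ) ≤ (k : ℝ) ^ 2 + (l : ℝ) ^ 2 := by
    rcases h with h | h
    · nlinarith [one_le_sq h, sq_nonneg (l : ℝ)]
    · nlinarith [one_le_sq h, sq_nonneg (k : ℝ)]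
  have h2 : 9.86 ≤ π ^ 2 := by nlinarith [Real.pi_gt_d4]
  refine ⟨?_, h1⟩
  simp only [ev]
  nlinarith

theorem ev_ne (q : ℤ × ℤ) : ev q ≠ 0 := by
  obtain ⟨k, l⟩ := q
  by_cases h : k ≠ 0 ∨ l ≠ 0
  · have := ev_ge h
    intro h0
    linarith [this.1, this.2]
  · simp only [not_or, not_not] at h
    norm_num [ev, h.1, h.2]

theorem wt_le {k l : ℤ} (h : k ≠ 0 ∨ l ≠ 0) :
    wt (k, l) ≤ 1 / 8.06 * (1 / ((k : ℝ) ^ 2 + (l : ℝ) ^ 2)) := by
  have := ev_ge h
  rw [wt, abs_of_pos (by linarith [this.1, this.2]), div_mul_div_comm, one_mul]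
  exact one_div_le_one_div_of_le (by linarith [this.2]) this.1

/-- the indicator of zero -/
def dl (k : ℤ) : ℝ := if k = 0 then 1 else 0

theorem hasSum_dl : HasSum dl 1 := hasSum_ite_eq 0 1

theorem dl_nonneg (k : ℤ) : 0 ≤ dl k := by unfold dl; split_ifs <;> norm_num

theorem hasSum_z2 : HasSum (fun k : ℤ => 1 / (k : ℝ) ^ 2) (π ^ 2 / 3) := by
  have h := HasSum.of_nat_of_neg (f := fun k : ℤ => 1 / (k : ℝ) ^ 2)
    (by simpa using hasSum_zeta_two) (by simpa using hasSum_zeta_two)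
  rwa [show π ^ 2 / 6 + π ^ 2 / 6 - 1 / ((0 : ℤ) : ℝ) ^ 2 = π ^ 2 / 3 by simp; ring] at h

theorem hasSum_z4 : HasSum (fun k : ℤ => 1 / (k : ℝ) ^ 4) (π ^ 4 / 45) := by
  have h := HasSum.of_nat_of_neg (f := fun k : ℤ => 1 / (k : ℝ) ^ 4)
    (by simpa using hasSum_zeta_four) (by simpa [Even.neg_pow (show Even 4 by decide)]
      using hasSum_zeta_four)
  rwa [show π ^ 4 / 90 + π ^ 4 / 90 - 1 / ((0 : ℤ) : ℝ) ^ 4 = π ^ 4 / 45 by simp; ring] at h

theorem pi_sq_le : π ^ 2 ≤ 9.87 := by nlinarith [Real.pi_lt_d4, Real.pi_pos]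

theorem hasSum_prod {f g : ℤ → ℝ} {a b : ℝ} (hf : HasSum f a) (hg : HasSum g b) (h0 : 0 ≤ f)
    (h1 : 0 ≤ g) : HasSum (fun q : ℤ × ℤ => f q.1 * g q.2) (a * b) :=
  hf.mul hg (hf.summable.mul_of_nonneg hg.summable h0 h1)

theorem sum_wt_sq (F : Finset (ℤ × ℤ)) : ∑ q ∈ F, wt q ^ 2 ≤ 0.65 ^ 2 := by
  have z2 : 0 ≤ fun k : ℤ => 1 / (k : ℝ) ^ 2 := fun k => by positivity
  have z4 : 0 ≤ fun k : ℤ => 1 / (k : ℝ) ^ 4 := fun k => by positivity
  have h := ((hasSum_prod hasSum_dl hasSum_dl dl_nonneg dl_nonneg).mul_left ((5 / 9) ^ 2)).add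
    ((((hasSum_prod hasSum_dl hasSum_z4 dl_nonneg z4).add
      (hasSum_prod hasSum_z4 hasSum_dl z4 dl_nonneg)).add
      ((hasSum_prod hasSum_z2 hasSum_z2 z2 z2).mul_left (1 / 4))).mul_left ((1 / 8.06) ^ 2))
  refine le_trans (Finset.sum_le_sum fun q _ => ?_) ((sum_le_hasSum F (fun q _ => ?_) h).trans ?_)
  · obtain ⟨k, l⟩ := q
    by_cases hk : k = 0
    · by_cases hl : l = 0
      · simp [hk, hl, dl, wt_zero]
      · refine (pow_le_pow_left₀ (wt_nonneg _) (wt_le (Or.inr hl)) 2).trans (le_of_eq ?_)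
        simp only [hk, hl, dl, if_true, if_false]
        push_cast
        ring
    · by_cases hl : l = 0
      · refine (pow_le_pow_left₀ (wt_nonneg _) (wt_le (Or.inl hk)) 2).trans (le_of_eq ?_)
        simp only [hk, hl, dl, if_true, if_false]
        push_cast
        ring
      · refine (pow_le_pow_left₀ (wt_nonneg _) (wt_le (Or.inl hk)) 2).trans ?_
        simp only [hk, hl, dl, if_false, mul_zero, zero_mul, zero_add, mul_pow]
        refine mul_le_mul_of_nonneg_left ?_ (by positivity)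
        have a1 := one_le_sq hk
        have a2 := one_le_sq hl
        rw [div_pow, div_mul_div_comm, div_mul_div_comm, one_pow, mul_one, mul_one]
        exact one_div_le_one_div_of_le (by positivity) (by nlinarith [sq_nonneg ((k : ℝ) ^ 2 - l ^ 2)])
  · have := dl_nonneg q.1
    have := dl_nonneg q.2
    positivity
  · have h1 := pi_sq_le
    have h2 : π ^ 4 ≤ 9.87 ^ 2 := by
      rw [show π ^ 4 = (π ^ 2) ^ 2 by ring]; gcongr
    have h3 : π ^ 2 / 3 * (π ^ 2 / 3) = π ^ 4 / 9 := by ring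
    rw [h3]
    norm_num at h2 ⊢
    linarith

theorem sum_inv_sq_add {K : ℝ} (hK : 1 ≤ K) (F : Finset ℤ) :
    ∑ l ∈ F, 1 / (K ^ 2 + (l : ℝ) ^ 2) ≤ 5 / K := by
  have h1 : ∀ N : ℕ, ∑ n ∈ Finset.range N, 1 / (K ^ 2 + ((n : ℝ) + 1) ^ 2) ≤
      2 / K - 2 / (K + N) := by
    intro N
    induction N with
    | zero => simp
    | succ N ih =>
      rw [Finset.sum_range_succ]
      have hN : (0 : ℝ) ≤ N := Nat.cast_nonneg N
      have : 1 / (K ^ 2 + ((N : ℝ) + 1) ^ 2) ≤ 2 / (K + N) - 2 / (K + (N + 1 : ℕ)) := by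
        push_cast
        rw [div_sub_div _ _ (by positivity) (by positivity),
          div_le_div_iff₀ (by positivity) (by positivity)]
        nlinarith [sq_nonneg (K - N - 1)]
      linarith
  have h2 : ∀ N : ℕ, ∑ n ∈ Finset.range N, 1 / (K ^ 2 + ((n : ℝ) + 1) ^ 2) ≤ 2 / K := fun N =>
    (h1 N).trans (sub_le_self _ (by positivity))
  have h3 := summable_of_sum_range_le (fun n => by positivity) h2
  have h4 := Real.tsum_le_of_sum_range_le (fun n => by positivity) h2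
  have h5 := HasSum.of_add_one_of_neg_add_one (f := fun l : ℤ => 1 / (K ^ 2 + (l : ℝ) ^ 2))
    (by simpa using h3.hasSum) (by simpa only [Int.cast_neg, neg_sq, Int.cast_add, Int.cast_natCast, Int.cast_one, one_div] using h3.hasSum)
  refine (sum_le_hasSum F (fun _ _ => by positivity) h5).trans ?_
  have h6 : 1 / K ^ 2 ≤ 1 / K := one_div_le_one_div_of_le (by positivity) (by nlinarith)
  have h7 : 5 / K = 2 / K + 1 / K + 2 / K := by ring
  simp only [one_div, Int.cast_zero, ne_eq, OfNat.ofNat_ne_zero, not_false_eq_true, zero_pow,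
    add_zero] at h4 h6 h7 ⊢
  linarith

/-- bounds for the sums of the weights along lines -/
def bk (k : ℤ) : ℝ := if k = 0 then 0.964 else 5 / 8.06 * (1 / |(k : ℝ)|)

theorem bk_nonneg (k : ℤ) : 0 ≤ bk k := by unfold bk; split_ifs <;> positivity

theorem sum_wt_line (k : ℤ) (F : Finset ℤ) : ∑ l ∈ F, wt (k, l) ≤ bk k := by
  unfold bk
  split_ifs with hk
  · have h := (hasSum_dl.mul_left (5 / 9)).add (hasSum_z2.mul_left (1 / 8.06))
    refine le_trans (Finset.sum_le_sum fun l _ => ?_)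
      ((sum_le_hasSum F (fun l _ => ?_) h).trans ?_)
    · by_cases hl : l = 0
      · simp [hk, hl, dl, wt_zero]
      · refine (wt_le (Or.inr hl)).trans (le_of_eq ?_)
        simp [hk, hl, dl]
    · have := dl_nonneg l
      positivity
    · have := pi_sq_le
      norm_num at this ⊢
      linarith
  · have h1 : (1 : ℝ) ≤ |(k : ℝ)| := by exact_mod_cast Int.one_le_abs hk
    have h2 := sum_inv_sq_add h1 F
    rw [sq_abs] at h2
    calc _ ≤ ∑ l ∈ F, 1 / 8.06 * (1 / ((k : ℝ) ^ 2 + (l : ℝ) ^ 2)) :=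
          Finset.sum_le_sum fun l _ => wt_le (Or.inl hk)
      _ ≤ 1 / 8.06 * (5 / |(k : ℝ)|) := by rw [← Finset.mul_sum]; gcongr
      _ = _ := by ring

theorem sum_bk_sq (F : Finset ℤ) : ∑ k ∈ F, bk k ^ 2 ≤ 1.482 ^ 2 := by
  have h := (hasSum_dl.mul_left (0.964 ^ 2)).add (hasSum_z2.mul_left ((5 / 8.06) ^ 2))
  refine le_trans (Finset.sum_le_sum fun k _ => le_of_eq ?_)
    ((sum_le_hasSum F (fun k _ => ?_) h).trans ?_)
  · by_cases hk : k = 0
    · simp [hk, dl, bk]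
    · simp only [hk, dl, bk, if_false, mul_zero, zero_add, mul_pow, div_pow, sq_abs, one_pow]
  · have := dl_nonneg k
    positivity
  · have := pi_sq_le
    norm_num at this ⊢
    linarith

theorem key1 {H : ℝ × ℝ → ℝ} {M a : ℝ} (h : Bd H M) (ha : 0 ≤ a)
    (h2 : ∫ p, H p ^ 2 ∂(mu.prod mu) ≤ a ^ 2) (F : Finset (ℤ × ℤ)) :
    ∑ q ∈ F, |hat H q| * wt q ≤ 0.65 * a := by
  refine (pow_le_pow_iff_left₀ (Finset.sum_nonneg fun q _ => mul_nonneg (abs_nonneg _)
    (wt_nonneg _)) (by positivity) two_ne_zero).mp ?_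
  refine (Finset.sum_mul_sq_le_sq_mul_sq _ _ _).trans ?_
  rw [mul_pow, mul_comm]
  simp only [sq_abs]
  exact mul_le_mul (sum_wt_sq F) ((sum_le_hasSum F (fun _ _ => sq_nonneg _) (pars2 h)).trans h2)
    (Finset.sum_nonneg fun _ _ => sq_nonneg _) (by positivity)

theorem integrable_isq : Integrable (fun t : ℝ => t ^ (-(1 / 2) : ℝ)) mu :=
  (intervalIntegrable_iff_integrableOn_Ioc_of_le zero_le_one).mp
    (intervalIntegral.intervalIntegrable_rpow' (by norm_num))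

theorem integral_isq : ∫ t, t ^ (-(1 / 2) : ℝ) ∂mu = 2 := by
  rw [← intervalIntegral.integral_of_le zero_le_one, integral_rpow (Or.inl (by norm_num))]
  norm_num

theorem isq_eq {t : ℝ} (ht : 0 < t) : t ^ (-(1 / 2) : ℝ) = 1 / √t := by
  rw [Real.rpow_neg ht.le, Real.sqrt_eq_rpow, one_div (t ^ _)]

theorem integrable_max : Integrable (fun p : ℝ × ℝ => 1 / max p.1 p.2) (mu.prod mu) := by
  refine (integrable_isq.mul_prod integrable_isq).mono' (Measurable.aestronglyMeasurable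
    (by fun_prop)) (ae_mu2.mono fun p hp => ?_)
  have h1 := hp.1.1
  have h2 := hp.2.1
  have h3 : 0 < max p.1 p.2 := lt_max_of_lt_left h1
  rw [Real.norm_eq_abs, abs_of_pos (by positivity), isq_eq h1, isq_eq h2, div_mul_div_comm,
    one_mul, ← Real.sqrt_mul h1.le]
  refine one_div_le_one_div_of_le (by positivity) (Real.sqrt_le_iff.mpr ⟨h3.le, ?_⟩)
  rw [sq]
  exact mul_le_mul (le_max_left _ _) (le_max_right _ _) h2.le h3.le

theorem integral_max_sq {t : ℝ} (ht : t ∈ Ioc (0 : ℝ) 1) :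
    ∫ s, (1 / max s t) ^ 2 ∂mu ≤ 2 / t := by
  have h0 := ht.1
  have hc : Continuous fun s : ℝ => (1 / max s t) ^ 2 :=
    (continuous_const.div (by fun_prop) fun s => (lt_max_of_lt_right h0).ne').pow 2
  rw [← intervalIntegral.integral_of_le zero_le_one,
    ← intervalIntegral.integral_add_adjacent_intervals (b := t) (hc.intervalIntegrable _ _)
      (hc.intervalIntegrable _ _)]
  have h1 : ∫ s in (0 : ℝ)..t, (1 / max s t) ^ 2 = 1 / t := by
    rw [intervalIntegral.integral_congr (g := fun _ => (1 / t) ^ 2) fun s hs => by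
      rw [uIcc_of_le h0.le] at hs
      simp only [max_eq_right hs.2]]
    simp only [intervalIntegral.integral_const, smul_eq_mul]
    field_simp
    ring
  have h2 : ∫ s in t..1, (1 / max s t) ^ 2 = -(1 : ℝ)⁻¹ - -t⁻¹ := by
    refine intervalIntegral.integral_eq_sub_of_hasDerivAt (f := fun s => -s⁻¹) (fun s hs => ?_)
      (hc.intervalIntegrable _ _)
    rw [uIcc_of_le ht.2] at hs
    rw [max_eq_left hs.1]
    refine (hasDerivAt_inv (h0.trans_le hs.1).ne').neg.congr_deriv ?_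
    rw [neg_neg, one_div, inv_pow]
  rw [h1, h2]
  have : 2 / t = 1 / t + t⁻¹ := by field_simp; ring
  linarith

theorem key2 {G : ℝ × ℝ → ℝ} {b : ℝ} (hG : Measurable G) (hb : 0 ≤ b)
    (h : ∀ s ∈ Ioc (0 : ℝ) 1, ∀ t ∈ Ioc (0 : ℝ) 1, |G (s, t)| ≤ b * (1 / max s t)) :
    Integrable G (mu.prod mu) ∧ ∀ F : Finset (ℤ × ℤ), ∑ q ∈ F, |hat G q| * wt q ≤ 4.2 * b := by
  have hi : Integrable G (mu.prod mu) := (integrable_max.const_mul b).mono'
    hG.aestronglyMeasurable (ae_mu2.mono fun p hp => h _ hp.1 _ hp.2)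
  refine ⟨hi, fun F => ?_⟩
  have hsl : ∀ k, Integrable (sl G k) mu := fun k => by
    have hc : Continuous fun p : ℝ × ℝ => cs k p.1 := by fun_prop
    have h1 : Integrable (fun p : ℝ × ℝ => G p * cs k p.1) (mu.prod mu) :=
      hi.mul_bdd (c := 1) hc.aestronglyMeasurable (Eventually.of_forall fun p => abs_cs k p.1)
    exact h1.integral_prod_right
  have h1 : ∀ q, |hat G q| ≤ ∫ t, |sl G q.1 t| ∂mu := fun q => by
    rw [hat_eq hi, co, ← Real.norm_eq_abs]
    refine norm_integral_le_of_norm_le (hsl q.1).abs (Eventually.of_forall fun t => ?_)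
    rw [Real.norm_eq_abs, abs_mul]
    exact mul_le_of_le_one_right (abs_nonneg _) (abs_cs _ _)
  have h2 : ∀ t ∈ Ioc (0 : ℝ) 1, ∀ S : Finset ℤ,
      ∑ k ∈ S, |sl G k t| * bk k ≤ 2.1 * b * t ^ (-(1 / 2) : ℝ) := by
    intro t ht S
    have h0 := ht.1
    have hb' : ∀ s ∈ Ioc (0 : ℝ) 1, |G (s, t)| ≤ b * (1 / t) := fun s hs =>
      (h s hs t ht).trans (by gcongr; exact le_max_right _ _)
    have h3 := sum_le_hasSum S (fun _ _ => sq_nonneg _)
      (pars1 (g := fun s => G (s, t)) (hG.comp measurable_prodMk_right) hb')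
    have h4 : ∫ s, G (s, t) ^ 2 ∂mu ≤ b ^ 2 * (2 / t) := by
      refine le_trans ?_ (mul_le_mul_of_nonneg_left (integral_max_sq ht) (sq_nonneg b))
      rw [← integral_const_mul]
      have hc : Continuous fun s : ℝ => b ^ 2 * (1 / max s t) ^ 2 := continuous_const.mul
        ((continuous_const.div (by fun_prop) fun s => (lt_max_of_lt_right h0).ne').pow 2)
      refine integral_mono_of_nonneg (Eventually.of_forall fun s => sq_nonneg _)
        hc.integrableOn_Ioc (ae_mu.mono fun s hs => ?_)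
      simp only [← mul_pow]
      rw [← sq_abs]
      exact pow_le_pow_left₀ (abs_nonneg _) (h s hs t ht) 2
    refine (pow_le_pow_iff_left₀ (Finset.sum_nonneg fun k _ => mul_nonneg (abs_nonneg _)
      (bk_nonneg _)) (by positivity) two_ne_zero).mp ?_
    refine (Finset.sum_mul_sq_le_sq_mul_sq _ _ _).trans ?_
    simp only [sq_abs]
    refine (mul_le_mul (h3.trans h4) (sum_bk_sq S) (Finset.sum_nonneg fun _ _ => sq_nonneg _)
      (by positivity)).trans ?_
    rw [isq_eq h0, mul_pow, mul_pow, div_pow, Real.sq_sqrt h0.le]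
    have h5 : 0 ≤ b ^ 2 * (1 / t) := by positivity
    have h6 : b ^ 2 * (2 / t) * 1.482 ^ 2 = 2 * 1.482 ^ 2 * (b ^ 2 * (1 / t)) := by ring
    have h7 : 2.1 ^ 2 * b ^ 2 * (1 ^ 2 / t) = 2.1 ^ 2 * (b ^ 2 * (1 / t)) := by ring
    rw [h6, h7]
    gcongr
    norm_num
  calc _ ≤ ∑ q ∈ F.image Prod.fst ×ˢ F.image Prod.snd, |hat G q| * wt q :=
        Finset.sum_le_sum_of_subset_of_nonneg Finset.subset_product
          fun q _ _ => mul_nonneg (abs_nonneg _) (wt_nonneg _)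
    _ ≤ ∑ k ∈ F.image Prod.fst, (∫ t, |sl G k t| ∂mu) * bk k := by
        rw [Finset.sum_product]
        refine Finset.sum_le_sum fun k _ => le_trans (Finset.sum_le_sum fun l _ =>
          mul_le_mul_of_nonneg_right (h1 (k, l)) (wt_nonneg _)) ?_
        simp only [← Finset.mul_sum]
        exact mul_le_mul_of_nonneg_left (sum_wt_line k _) (integral_nonneg fun _ => abs_nonneg _)
    _ = ∫ t, ∑ k ∈ F.image Prod.fst, |sl G k t| * bk k ∂mu := by
        rw [integral_finsetSum _ fun k _ => (hsl k).abs.mul_const _]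
        simp only [integral_mul_const]
    _ ≤ ∫ t, 2.1 * b * t ^ (-(1 / 2) : ℝ) ∂mu :=
        integral_mono_ae (integrable_finsetSum _ fun k _ => (hsl k).abs.mul_const _)
          (integrable_isq.const_mul _) (ae_mu.mono fun t ht => h2 t ht _)
    _ = _ := by rw [integral_const_mul, integral_isq]; ring

theorem key {H H1 : ℝ × ℝ → ℝ} {M a b : ℝ} (hH : Measurable H) (h1 : Bd H1 M) (ha : 0 ≤ a)
    (hb : 0 ≤ b) (h0 : ∀ s ∈ Ioc (0 : ℝ) 1, ∀ t ∈ Ioc (0 : ℝ) 1, 0 ≤ H1 (s, t))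
    (h2 : ∫ p, H1 p ^ 2 ∂(mu.prod mu) ≤ a ^ 2)
    (h : ∀ s ∈ Ioc (0 : ℝ) 1, ∀ t ∈ Ioc (0 : ℝ) 1, |H (s, t)| ≤ H1 (s, t) + b * (1 / max s t)) :
    Integrable H (mu.prod mu) ∧ (Summable fun q => |hat H q| * wt q) ∧
      ∑' q, |hat H q| * wt q ≤ 0.65 * a + 4.2 * b := by
  set G1 : ℝ × ℝ → ℝ := fun p => max (-H1 p) (min (H p) (H1 p)) with hG1
  have m1 : Measurable G1 := h1.m.neg.max (hH.min h1.m)
  have c1 : ∀ s ∈ Ioc (0 : ℝ) 1, ∀ t ∈ Ioc (0 : ℝ) 1, |G1 (s, t)| ≤ H1 (s, t) := fun s hs t ht =>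
    abs_le.mpr ⟨le_max_left _ _, max_le (by linarith [h0 s hs t ht]) (min_le_right _ _)⟩
  have b1 : Bd G1 M := ⟨m1, fun s hs t ht => (c1 s hs t ht).trans
    ((le_abs_self _).trans (h1.b s hs t ht))⟩
  have k1 := key1 b1 ha ((integral_mono_ae b1.int_sq h1.int_sq (ae_mu2.mono fun p hp => by
    simp only
    rw [← sq_abs]
    exact pow_le_pow_left₀ (abs_nonneg _) (c1 _ hp.1 _ hp.2) 2)).trans h2)
  obtain ⟨i2, k2⟩ := key2 (G := fun p => H p - G1 p) (hH.sub m1) hb fun s hs t ht => by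
    have h3 := abs_le.mp (h s hs t ht)
    have h4 := h0 s hs t ht
    have h5 : 0 ≤ b * (1 / max s t) := by have := lt_max_of_lt_left (c := t) hs.1; positivity
    simp only [hG1]
    rcases le_total (H (s, t)) (H1 (s, t)) with h6 | h6
    · rw [min_eq_left h6]
      rcases le_total (-H1 (s, t)) (H (s, t)) with h7 | h7
      · rw [max_eq_right h7]; simpa using h5
      · rw [max_eq_left h7, abs_le]; constructor <;> linarith
    · rw [min_eq_right h6, max_eq_right (by linarith), abs_le]; constructor <;> linarith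
  have e : H = fun p => G1 p + (H p - G1 p) := by funext p; ring
  have hF : ∀ F : Finset (ℤ × ℤ), ∑ q ∈ F, |hat H q| * wt q ≤ 0.65 * a + 4.2 * b := fun F => by
    refine le_trans ?_ (add_le_add (k1 F) (k2 F))
    rw [← Finset.sum_add_distrib]
    refine Finset.sum_le_sum fun q _ => ?_
    rw [← add_mul]
    refine mul_le_mul_of_nonneg_right ?_ (wt_nonneg _)
    conv_lhs => rw [e, hat_add b1.int i2]
    exact abs_add_le _ _
  have hn : 0 ≤ fun q => |hat H q| * wt q := fun q => mul_nonneg (abs_nonneg _) (wt_nonneg _)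
  exact ⟨by rw [e]; exact b1.int.add i2, summable_of_sum_le hn hF, Real.tsum_le_of_sum_le hn hF⟩

end Pool.Agent.MP_6b3e96_gt.H75
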