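import Mathlib

/-! Parseval's identity for cosine series on the unit interval and on the unit square. -/

open scoped Real
open Set MeasureTheory Filter

noncomputable section

namespace Pool.Agent.MP_6b3e96_gt.H75

/-- Lebesgue measure on the unit interval -/
abbrev mu : Measure ℝ := volume.restrict (Ioc 0 1)

instance : IsProbabilityMeasure mu := ⟨by simp⟩

theorem ae_mu : ∀ᵐ s ∂mu, s ∈ Ioc (0 : ℝ) 1 := ae_restrict_mem measurableSet_Ioc

theorem ae_mu2 : ∀ᵐ p ∂(mu.prod mu), p.1 ∈ Ioc (0 : ℝ) 1 ∧ p.2 ∈ Ioc (0 : ℝ) 1 := by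
  rw [Measure.prod_restrict]
  exact ae_restrict_mem (measurableSet_Ioc.prod measurableSet_Ioc)

/-- the cosine modes -/
def cs (k : ℤ) (x : ℝ) : ℝ := Real.cos (k * π * x)

@[fun_prop]
theorem continuous_cs (k : ℤ) : Continuous (cs k) := by unfold cs; fun_prop

@[fun_prop]
theorem measurable_cs (k : ℤ) : Measurable (cs k) := (continuous_cs k).measurable

theorem abs_cs (k : ℤ) (x : ℝ) : |cs k x| ≤ 1 := Real.abs_cos_le_one _

/-- cosine coefficients on the interval -/
def co (g : ℝ → ℝ) (k : ℤ) : ℝ := ∫ s, g s * cs k s ∂mu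

theorem integral_sym {E : Type} [NormedAddCommGroup E] [NormedSpace ℝ E] {φ : ℝ → E}
    (h : IntervalIntegrable φ volume (-1) 1) :
    ∫ x in (-1 : ℝ)..1, φ x = ∫ x, (φ (-x) + φ x) ∂mu := by
  have h1 : IntervalIntegrable φ volume (-1) 0 := h.mono_set (by
    rw [uIcc_of_le (by norm_num), uIcc_of_le (by norm_num)]
    exact Icc_subset_Icc_right (by norm_num))
  have h2 : IntervalIntegrable φ volume 0 1 := h.mono_set (by
    rw [uIcc_of_le (by norm_num), uIcc_of_le (by norm_num)]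
    exact Icc_subset_Icc_left (by norm_num))
  have h3 : IntervalIntegrable (fun x => φ (-x)) volume 0 1 := by
    simpa using ((IntervalIntegrable.iff_comp_neg (by simp)).mp h1).symm
  rw [← intervalIntegral.integral_add_adjacent_intervals h1 h2,
    ← intervalIntegral.integral_of_le zero_le_one, intervalIntegral.integral_add h3 h2,
    intervalIntegral.integral_comp_neg]
  simp

theorem pars1 {g : ℝ → ℝ} (hg : Measurable g) {M : ℝ} (hM : ∀ s ∈ Ioc (0 : ℝ) 1, |g s| ≤ M) :
    HasSum (fun k => co g k ^ 2) (∫ s, g s ^ 2 ∂mu) := by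
  have hab : (-1 : ℝ) < 1 := by norm_num
  have hm : Measurable fun x : ℝ => ((g |x| : ℝ) : ℂ) := by fun_prop
  have hb : ∀ᵐ x ∂(volume.restrict (Ioc (-1 : ℝ) 1)), ‖((g |x| : ℝ) : ℂ)‖ ≤ M := by
    filter_upwards [ae_restrict_mem measurableSet_Ioc,
      ae_restrict_of_ae (compl_mem_ae_iff.mpr (Real.volume_singleton (a := 0)))] with x hx h0
    rw [Complex.norm_real]
    exact hM _ ⟨abs_pos.mpr h0, abs_le.mpr ⟨hx.1.le, hx.2⟩⟩
  have hL : MemLp (fun x : ℝ => ((g |x| : ℝ) : ℂ)) 2 (volume.restrict (Ioc (-1 : ℝ) 1)) :=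
    MemLp.of_bound hm.aestronglyMeasurable M hb
  have h := hasSum_sq_fourierCoeffOn hab hL
  have hi : IntervalIntegrable (fun x : ℝ => ((g |x| : ℝ) : ℂ)) volume (-1) 1 :=
    (intervalIntegrable_iff_integrableOn_Ioc_of_le hab.le).mpr (hL.integrable one_le_two)
  have e1 : ∀ k : ℤ, fourierCoeffOn hab (fun x : ℝ => ((g |x| : ℝ) : ℂ)) k = (co g k : ℝ) := by
    intro k
    rw [fourierCoeffOn_eq_integral]
    simp only [fourier_coe_apply, smul_eq_mul]
    rw [integral_sym (hi.continuousOn_mul (Continuous.continuousOn (by fun_prop))), co,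
      ← integral_complex_ofReal, ← integral_smul]
    refine integral_congr_ae (ae_mu.mono fun x hx => ?_)
    simp only [abs_neg, abs_of_pos hx.1, cs, Complex.real_smul]
    push_cast
    rw [Complex.cos, show (2 * π * Complex.I * -k * -x / (1 - -1) : ℂ) = k * π * x * Complex.I by
      ring, show (2 * π * Complex.I * -k * x / (1 - -1) : ℂ) = -(k * π * x) * Complex.I by ring]
    ring
  have hi2 : IntervalIntegrable (fun x : ℝ => ‖((g |x| : ℝ) : ℂ)‖ ^ 2) volume (-1) 1 :=
    (intervalIntegrable_iff_integrableOn_Ioc_of_le hab.le).mpr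
      ((memLp_two_iff_integrable_sq_norm hm.aestronglyMeasurable).mp hL)
  rw [integral_sym hi2, ← integral_smul] at h
  simp only [e1, Complex.norm_real, Real.norm_eq_abs, sq_abs, abs_neg, smul_eq_mul] at h
  rwa [integral_congr_ae (g := fun s => g s ^ 2) (ae_mu.mono fun x hx => by
    simp only [abs_of_pos hx.1]; ring)] at h

/-- the modes on the square -/
def md (q : ℤ × ℤ) (p : ℝ × ℝ) : ℝ := cs q.1 p.1 * cs q.2 p.2

@[fun_prop]
theorem continuous_md (q : ℤ × ℤ) : Continuous (md q) := by unfold md; fun_prop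

theorem abs_md (q : ℤ × ℤ) (p : ℝ × ℝ) : |md q p| ≤ 1 := by
  rw [md, abs_mul]; exact mul_le_one₀ (abs_cs _ _) (abs_nonneg _) (abs_cs _ _)

/-- cosine coefficients on the square -/
def hat (H : ℝ × ℝ → ℝ) (q : ℤ × ℤ) : ℝ := ∫ p, H p * md q p ∂(mu.prod mu)

theorem integrable_md {μ : Measure (ℝ × ℝ)} {H : ℝ × ℝ → ℝ} (h : Integrable H μ) (q : ℤ × ℤ) :
    Integrable (fun p => H p * md q p) μ :=
  h.mul_bdd (continuous_md q).aestronglyMeasurable (Eventually.of_forall (abs_md q))

/-- cosine coefficients in the first variable -/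
def sl (H : ℝ × ℝ → ℝ) (k : ℤ) (t : ℝ) : ℝ := co (fun s => H (s, t)) k

theorem measurable_sl {H : ℝ × ℝ → ℝ} (h : Measurable H) (k : ℤ) : Measurable (sl H k) :=
  (StronglyMeasurable.integral_prod_left' (f := fun p : ℝ × ℝ => H p * cs k p.1)
    (Measurable.stronglyMeasurable (by fun_prop))).measurable

theorem hat_eq {H : ℝ × ℝ → ℝ} (h : Integrable H (mu.prod mu)) (q : ℤ × ℤ) :
    hat H q = co (sl H q.1) q.2 := by
  rw [hat, integral_prod_symm _ (integrable_md h q), co]
  refine integral_congr_ae (Eventually.of_forall fun t => ?_)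
  simp only [sl, co, md, ← mul_assoc, integral_mul_const]

/-- bounded measurable functions on the square -/
structure Bd (H : ℝ × ℝ → ℝ) (M : ℝ) : Prop where
  m : Measurable H
  b : ∀ s ∈ Ioc (0 : ℝ) 1, ∀ t ∈ Ioc (0 : ℝ) 1, |H (s, t)| ≤ M

theorem Bd.int {H : ℝ × ℝ → ℝ} {M : ℝ} (h : Bd H M) : Integrable H (mu.prod mu) :=
  Integrable.of_bound h.m.aestronglyMeasurable M (ae_mu2.mono fun _ hp => h.b _ hp.1 _ hp.2)

theorem Bd.mul {H G : ℝ × ℝ → ℝ} {M N : ℝ} (h : Bd H M) (g : Bd G N) :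
    Bd (fun p => H p * G p) (M * N) :=
  ⟨h.m.mul g.m, fun s hs t ht => by
    rw [abs_mul]
    exact mul_le_mul (h.b s hs t ht) (g.b s hs t ht) (abs_nonneg _)
      ((abs_nonneg _).trans (h.b s hs t ht))⟩

theorem Bd.add {H G : ℝ × ℝ → ℝ} {M N : ℝ} (h : Bd H M) (g : Bd G N) :
    Bd (fun p => H p + G p) (M + N) :=
  ⟨h.m.add g.m, fun s hs t ht => (abs_add_le _ _).trans
    (add_le_add (h.b s hs t ht) (g.b s hs t ht))⟩

theorem Bd.sub {H G : ℝ × ℝ → ℝ} {M N : ℝ} (h : Bd H M) (g : Bd G N) :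
    Bd (fun p => H p - G p) (M + N) :=
  ⟨h.m.sub g.m, fun s hs t ht => (abs_sub _ _).trans (add_le_add (h.b s hs t ht) (g.b s hs t ht))⟩

theorem Bd.int_sq {H : ℝ × ℝ → ℝ} {M : ℝ} (h : Bd H M) :
    Integrable (fun p => H p ^ 2) (mu.prod mu) := by simpa only [sq] using (h.mul h).int

theorem abs_co_le {g : ℝ → ℝ} {M : ℝ} (hM : ∀ s ∈ Ioc (0 : ℝ) 1, |g s| ≤ M) (k : ℤ) :
    |co g k| ≤ M := by
  have h := norm_integral_le_of_norm_le_const (μ := mu) (f := fun s => g s * cs k s) (C := M)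
    (ae_mu.mono fun s hs => by
      rw [Real.norm_eq_abs, abs_mul]
      exact (mul_le_of_le_one_right (abs_nonneg _) (abs_cs _ _)).trans (hM s hs))
  simpa [co] using h

theorem pars2 {H : ℝ × ℝ → ℝ} {M : ℝ} (h : Bd H M) :
    HasSum (fun q => hat H q ^ 2) (∫ p, H p ^ 2 ∂(mu.prod mu)) := by
  have hs : ∀ k, ∀ t ∈ Ioc (0 : ℝ) 1, |sl H k t| ≤ M := fun k t ht =>
    abs_co_le (fun s hs => h.b s hs t ht) k
  have h1 : ∀ k, HasSum (fun l => hat H (k, l) ^ 2) (∫ t, sl H k t ^ 2 ∂mu) := fun k => by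
    simp only [hat_eq h.int]
    exact pars1 (measurable_sl h.m k) (hs k)
  have h2 : ∀ t ∈ Ioc (0 : ℝ) 1, HasSum (fun k => sl H k t ^ 2) (∫ s, H (s, t) ^ 2 ∂mu) :=
    fun t ht => pars1 (h.m.comp measurable_prodMk_right) fun s hs => h.b s hs t ht
  have hi : ∀ k, Integrable (fun t => sl H k t ^ 2) mu := fun k =>
    Integrable.of_bound ((measurable_sl h.m k).pow_const 2).aestronglyMeasurable (M ^ 2)
      (ae_mu.mono fun t ht => by
        rw [norm_pow, Real.norm_eq_abs]
        exact pow_le_pow_left₀ (abs_nonneg _) (hs k t ht) 2)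
  have h3 : Summable fun k => ∫ t, ‖sl H k t ^ 2‖ ∂mu := by
    refine summable_of_sum_le (c := ∫ t, ∫ s, H (s, t) ^ 2 ∂mu ∂mu)
      (fun k => integral_nonneg fun t => norm_nonneg _) fun F => ?_
    rw [← integral_finsetSum _ fun k _ => (hi k).norm]
    refine integral_mono_ae (integrable_finsetSum _ fun k _ => (hi k).norm)
      h.int_sq.integral_prod_right (ae_mu.mono fun t ht => ?_)
    simp only [norm_pow, Real.norm_eq_abs, sq_abs]
    exact sum_le_hasSum F (fun _ _ => sq_nonneg _) (h2 t ht)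
  have h4 := hasSum_integral_of_summable_integral_norm hi h3
  rw [integral_congr_ae (ae_mu.mono fun t ht => (h2 t ht).tsum_eq),
    ← integral_prod_symm _ h.int_sq] at h4
  have h5 : Summable fun q => hat H q ^ 2 := by
    refine (summable_prod_of_nonneg fun q => sq_nonneg _).mpr ⟨fun k => (h1 k).summable, ?_⟩
    simp only [(h1 _).tsum_eq]
    exact h4.summable
  rw [← (h5.hasSum.prod_fiberwise h1).unique h4]
  exact h5.hasSum

theorem hat_add {H G : ℝ × ℝ → ℝ} (h : Integrable H (mu.prod mu)) (g : Integrable G (mu.prod mu))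
    (q : ℤ × ℤ) : hat (fun p => H p + G p) q = hat H q + hat G q := by
  simp only [hat, add_mul]
  exact integral_add (integrable_md h q) (integrable_md g q)

theorem hat_sub {H G : ℝ × ℝ → ℝ} (h : Integrable H (mu.prod mu)) (g : Integrable G (mu.prod mu))
    (q : ℤ × ℤ) : hat (fun p => H p - G p) q = hat H q - hat G q := by
  simp only [hat, sub_mul]
  exact integral_sub (integrable_md h q) (integrable_md g q)

theorem pars2_mul {H G : ℝ × ℝ → ℝ} {M N : ℝ} (h : Bd H M) (g : Bd G N) :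
    HasSum (fun q => hat H q * hat G q) (∫ p, H p * G p ∂(mu.prod mu)) := by
  have h1 := ((pars2 (h.add g)).sub (pars2 (h.sub g))).div_const 4
  rw [← integral_sub (h.add g).int_sq (h.sub g).int_sq, ← integral_div] at h1
  simp only [hat_add h.int g.int, hat_sub h.int g.int] at h1
  have e : ∀ a b : ℝ, ((a + b) ^ 2 - (a - b) ^ 2) / 4 = a * b := fun a b => by ring
  simpa only [e] using h1

/-- the sum of a cosine series -/
def ser (c : ℤ × ℤ → ℝ) (p : ℝ × ℝ) : ℝ := ∑' q, c q * md q p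

theorem norm_term (c : ℤ × ℤ → ℝ) (q : ℤ × ℤ) (p : ℝ × ℝ) : ‖c q * md q p‖ ≤ |c q| := by
  rw [Real.norm_eq_abs, abs_mul]
  exact mul_le_of_le_one_right (abs_nonneg _) (abs_md _ _)

theorem continuous_ser {c : ℤ × ℤ → ℝ} (hc : Summable fun q => |c q|) : Continuous (ser c) :=
  continuous_tsum (fun q => by fun_prop) hc (norm_term c)

theorem abs_ser {c : ℤ × ℤ → ℝ} (hc : Summable fun q => |c q|) (p : ℝ × ℝ) :
    |ser c p| ≤ ∑' q, |c q| :=
  tsum_of_norm_bounded hc.hasSum fun q => norm_term c q p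

theorem hasSum_ser {μ : Measure (ℝ × ℝ)} {c : ℤ × ℤ → ℝ} (hc : Summable fun q => |c q|)
    {H : ℝ × ℝ → ℝ} (h : Integrable H μ) :
    HasSum (fun q => c q * ∫ p, H p * md q p ∂μ) (∫ p, H p * ser c p ∂μ) := by
  have hi : ∀ q, Integrable (fun p => c q * (H p * md q p)) μ := fun q =>
    (integrable_md h q).const_mul _
  have h1 := hasSum_integral_of_summable_integral_norm hi (Summable.of_nonneg_of_le
    (fun q => integral_nonneg fun p => norm_nonneg _) (fun q => ?_) (hc.mul_right (∫ p, ‖H p‖ ∂μ)))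
  · simp only [integral_const_mul] at h1
    simp only [ser, ← tsum_mul_left, mul_left_comm (H _)]
    exact h1
  · rw [← integral_const_mul]
    refine integral_mono (hi q).norm (h.norm.const_mul _) fun p => ?_
    simp only [norm_mul, Real.norm_eq_abs]
    exact mul_le_mul_of_nonneg_left (mul_le_of_le_one_right (abs_nonneg _) (abs_md _ _))
      (abs_nonneg _)

theorem pars_L1 {H G : ℝ × ℝ → ℝ} {N : ℝ} (h : Integrable H (mu.prod mu)) (g : Bd G N)
    (hc : Summable fun q => |hat G q|) :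
    HasSum (fun q => hat G q * hat H q) (∫ p, H p * G p ∂(mu.prod mu)) := by
  have hS : Bd (ser (hat G)) (∑' q, |hat G q|) :=
    ⟨(continuous_ser hc).measurable, fun s _ t _ => abs_ser hc _⟩
  have hD := g.sub hS
  have h1 := (pars2_mul g hD).unique (hasSum_ser hc hD.int)
  have h2 : ∫ p, (G p - ser (hat G) p) ^ 2 ∂(mu.prod mu) = 0 := by
    rw [← sub_eq_zero, ← integral_sub (g.mul hD).int (hD.mul hS).int] at h1
    rw [← h1]
    exact integral_congr_ae (Eventually.of_forall fun p => by ring)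
  have h3 := (integral_eq_zero_iff_of_nonneg (fun p => sq_nonneg _) hD.int_sq).mp h2
  rw [integral_congr_ae (g := fun p => H p * ser (hat G) p) (h3.mono fun p hp => by
    have : G p = ser (hat G) p := sub_eq_zero.mp (pow_eq_zero_iff two_ne_zero |>.mp hp)
    simp only [this])]
  exact hasSum_ser hc h

end Pool.Agent.MP_6b3e96_gt.H75
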