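import Pool.Agent.MP_6b3e96_gt.H75.Key
import Pool.Agent.MP_6b3e96_gt.H77.Basic

/-! The weak equation for the sum of the cosine series. -/

open scoped Real ContDiff
open Set MeasureTheory Filter

noncomputable section

namespace Pool.Agent.MP_6b3e96_gt.H75

open Pool.Agent.MP_6b3e96_gt.H77

/-- the point with given coordinates -/
def cx (p : ℝ × ℝ) : ℂ := ⟨p.1, p.2⟩

@[fun_prop]
theorem continuous_cx : Continuous cx := Complex.equivRealProdCLM.symm.continuous

theorem mp_cx : MeasurePreserving Complex.measurableEquivRealProd.symm volume volume :=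
  Complex.volume_preserving_equiv_real_prod.symm _

theorem integral_cx (f : ℂ → ℝ) : ∫ w, f w = ∫ p, f (cx p) :=
  (mp_cx.integral_comp' f).symm

theorem integrable_cx (f : ℂ → ℝ) : Integrable (fun p => f (cx p)) ↔ Integrable f :=
  mp_cx.integrable_comp_emb Complex.measurableEquivRealProd.symm.measurableEmbedding

theorem integral_Sq (f : ℂ → ℝ) : ∫ w in Sq, f w = ∫ p, f (cx p) ∂(mu.prod mu) := by
  rw [← mp_cx.setIntegral_preimage_emb Complex.measurableEquivRealProd.symm.measurableEmbedding,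
    mu, restrict_Ioc_eq_restrict_Icc, Measure.prod_restrict]
  rfl

theorem cs_fold (k : ℤ) (x : ℝ) : cs k (fold1 x) = cs k x := by
  have e : k * π * fold1 x = k * Real.arccos (Real.cos (π * x)) := by
    unfold fold1; field_simp
  rw [cs, cs, e, ← Polynomial.Chebyshev.T_real_cos, Real.cos_arccos (Real.neg_one_le_cos _)
    (Real.cos_le_one _), Polynomial.Chebyshev.T_real_cos, mul_assoc]

/-- the three reflections -/
def rf : Fin 3 → ℝ → ℝ := ![id, fun x => -x, fun x => 2 - x]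

theorem fold_rf (i : Fin 3) {s : ℝ} (hs : s ∈ Ioc (0 : ℝ) 1) : fold1 (rf i s) = s := by
  have e : Real.cos (π * rf i s) = Real.cos (π * s) := by
    fin_cases i
    · rfl
    · simp [rf]
    · show Real.cos (π * (2 - s)) = _
      rw [show π * (2 - s) = 2 * π - π * s by ring, Real.cos_two_pi_sub]
  have := Real.pi_pos
  rw [fold1, e, Real.arccos_cos (by nlinarith [hs.1]) (by nlinarith [hs.2])]
  field_simp

theorem emb_rf (i : Fin 3) : MeasurableEmbedding (rf i) := by
  fin_cases i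
  · exact MeasurableEmbedding.id
  · exact measurableEmbedding_neg
  · exact measurableEmbedding_subLeft 2

theorem continuous_rf (i : Fin 3) : Continuous (rf i) := by
  fin_cases i
  · exact continuous_id
  · exact continuous_neg
  · exact continuous_const.sub continuous_id

theorem restrict_eq : volume.restrict (Ioo (-1 : ℝ) 2) = Measure.sum fun i => mu.map (rf i) := by
  have h0 : mu.map (rf 0) = volume.restrict (Ioc 0 1) := Measure.map_id
  have h1 : mu.map (rf 1) = volume.restrict (Ioc (-1) 0) := by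
    have h := (emb_rf 1).restrict_map volume (Ico (-1) 0)
    have e : rf 1 ⁻¹' Ico (-1) 0 = Ioc 0 1 := by ext x; simp [rf]
    rw [e, show volume.map (rf 1) = volume from Measure.map_neg_eq_self _] at h
    rw [← h, restrict_Ico_eq_restrict_Ioc]
  have h2 : mu.map (rf 2) = volume.restrict (Ioc 1 2) := by
    have h := (emb_rf 2).restrict_map volume (Ico 1 2)
    have e : rf 2 ⁻¹' Ico 1 2 = Ioc 0 1 := by
      ext x
      show (1 ≤ 2 - x ∧ 2 - x < 2) ↔ (0 < x ∧ x ≤ 1)
      constructor <;> rintro ⟨a, b⟩ <;> constructor <;> linarith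
    rw [e, show volume.map (rf 2) = volume from Measure.map_sub_left_eq_self _ _] at h
    rw [← h, restrict_Ico_eq_restrict_Ioc]
  rw [Measure.sum_fintype, Fin.sum_univ_three, h0, h1, h2, add_comm (volume.restrict (Ioc 0 1)),
    ← Measure.restrict_union (Ioc_disjoint_Ioc_of_le le_rfl) measurableSet_Ioc,
    Ioc_union_Ioc_eq_Ioc (by norm_num) (by norm_num),
    ← Measure.restrict_union (Ioc_disjoint_Ioc_of_le le_rfl) measurableSet_Ioc,
    Ioc_union_Ioc_eq_Ioc (by norm_num) (by norm_num), restrict_Ioo_eq_restrict_Ioc]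

theorem restrict_eq2 : volume.restrict (Ioo (-1 : ℝ) 2 ×ˢ Ioo (-1 : ℝ) 2) =
    ∑ i : Fin 3 × Fin 3, (mu.prod mu).map (Prod.map (rf i.1) (rf i.2)) := by
  rw [Measure.volume_eq_prod, ← Measure.prod_restrict, restrict_eq, Measure.prod_sum,
    Measure.sum_fintype]
  exact Finset.sum_congr rfl fun i _ =>
    Measure.map_prod_map _ _ (emb_rf _).measurable (emb_rf _).measurable

/-- the folded function -/
def fd (ψ : ℂ → ℝ) (p : ℝ × ℝ) : ℝ := ∑ i : Fin 3 × Fin 3, ψ (cx (Prod.map (rf i.1) (rf i.2) p))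

theorem continuous_piece {ψ : ℂ → ℝ} (hψ : Continuous ψ) (i : Fin 3 × Fin 3) :
    Continuous fun p => ψ (cx (Prod.map (rf i.1) (rf i.2) p)) :=
  hψ.comp (continuous_cx.comp ((continuous_rf _).prodMap (continuous_rf _)))

theorem bd_fd {ψ : ℂ → ℝ} (hψ : Continuous ψ) {N : ℝ} (hN : ∀ w, ‖ψ w‖ ≤ N) :
    Bd (fd ψ) (9 * N) :=
  ⟨(continuous_finsetSum _ fun i _ => continuous_piece hψ i).measurable, fun s _ t _ =>
    (Finset.abs_sum_le_sum_abs _ _).trans ((Finset.sum_le_sum fun i _ => hN _).trans (by simp))⟩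

theorem fold_int {ψ : ℂ → ℝ} (hψ : Continuous ψ) {N : ℝ} (hN : ∀ w, ‖ψ w‖ ≤ N)
    (h0 : ∀ w, w ∉ box (-1) 2 → ψ w = 0) {H : ℝ × ℝ → ℝ} (hH : Integrable H (mu.prod mu)) :
    Integrable (fun w : ℂ => H (fold1 w.re, fold1 w.im) * ψ w) ∧
      ∫ w : ℂ, H (fold1 w.re, fold1 w.im) * ψ w = ∫ p, H p * fd ψ p ∂(mu.prod mu) := by
  set F : ℝ × ℝ → ℝ := fun p => H (fold1 p.1, fold1 p.2) * ψ (cx p) with hF
  have hz : ∀ p, p ∉ Ioo (-1 : ℝ) 2 ×ˢ Ioo (-1 : ℝ) 2 → F p = 0 := fun p hp => by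
    simp only [hF]
    rw [h0 (cx p) hp, mul_zero]
  have he : ∀ i : Fin 3 × Fin 3, MeasurableEmbedding (Prod.map (rf i.1) (rf i.2)) := fun i =>
    (emb_rf _).prodMap (emb_rf _)
  have h1 : ∀ i : Fin 3 × Fin 3, (fun p => H p * ψ (cx (Prod.map (rf i.1) (rf i.2) p)))
      =ᵐ[mu.prod mu] fun p => F (Prod.map (rf i.1) (rf i.2) p) := fun i =>
    ae_mu2.mono fun p hp => by
      simp only [hF, Prod.map_fst, Prod.map_snd, fold_rf _ hp.1, fold_rf _ hp.2]
  have h2 : ∀ i : Fin 3 × Fin 3,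
      Integrable (fun p => H p * ψ (cx (Prod.map (rf i.1) (rf i.2) p))) (mu.prod mu) := fun i =>
    hH.mul_bdd (c := N) (continuous_piece hψ i).aestronglyMeasurable
      (Eventually.of_forall fun p => hN _)
  have h3 : ∀ i : Fin 3 × Fin 3, Integrable F ((mu.prod mu).map (Prod.map (rf i.1) (rf i.2))) :=
    fun i => (he i).integrable_map_iff.mpr ((h2 i).congr (h1 i))
  constructor
  · refine (integrable_cx _).mp ((integrableOn_iff_integrable_of_support_subset
      (s := Ioo (-1 : ℝ) 2 ×ˢ Ioo (-1 : ℝ) 2) fun p hp => by_contra fun h => hp (hz p h)).mp ?_)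
    rw [IntegrableOn, restrict_eq2]
    exact integrable_finsetSum_measure.mpr fun i _ => h3 i
  · rw [integral_cx]
    refine (setIntegral_eq_integral_of_forall_compl_eq_zero hz).symm.trans ?_
    rw [restrict_eq2, integral_finsetSum_measure fun i _ => h3 i]
    simp only [fd, Finset.mul_sum]
    rw [integral_finsetSum _ fun i _ => h2 i]
    exact Finset.sum_congr rfl fun i _ => by rw [(he i).integral_map, integral_congr_ae (h1 i)]

/-- smooth functions with compact support -/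
def Tst (ψ : ℂ → ℝ) : Prop := ContDiff ℝ ∞ ψ ∧ HasCompactSupport ψ

theorem Tst.dir {ψ : ℂ → ℝ} (h : Tst ψ) (v : ℂ) : Tst fun z => fderiv ℝ ψ z v :=
  ⟨(h.1.fderiv_right (m := ∞) le_rfl).clm_apply contDiff_const, h.2.fderiv_apply ℝ v⟩

theorem Tst.op {ψ : ℂ → ℝ} (h : Tst ψ) : Tst fun z => lap ψ z + 9 / 5 * ψ z :=
  ⟨(((h.dir 1).dir 1).1.add ((h.dir Complex.I).dir Complex.I).1).add (contDiff_const.mul h.1),
    (((h.dir 1).dir 1).2.add ((h.dir Complex.I).dir Complex.I).2).add h.2.mul_left⟩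

theorem Tst.int {ψ : ℂ → ℝ} (h : Tst ψ) {f : ℂ → ℝ} (hf : Continuous f) :
    Integrable fun z => f z * ψ z :=
  (hf.mul h.1.continuous).integrable_of_hasCompactSupport h.2.mul_left

theorem Tst.ibp {ψ : ℂ → ℝ} (h : Tst ψ) {f f' : ℂ → ℝ} (v : ℂ) (hf : Differentiable ℝ f)
    (hf' : Continuous f') (e : ∀ z, fderiv ℝ f z v = f' z) :
    ∫ z, f z * fderiv ℝ ψ z v = -∫ z, f' z * ψ z := by
  simp only [← e]
  refine integral_mul_fderiv_eq_neg_fderiv_mul_of_integrable ?_ ((h.dir v).int hf.continuous)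
    (h.int hf.continuous) (fun z _ => hf z) fun z _ => h.1.differentiable (by simp) z
  simp only [e]
  exact h.int hf'

theorem hasFDerivAt_sep {A B : ℝ → ℝ} {a b : ℝ} {z : ℂ} (hA : HasDerivAt A a z.re)
    (hB : HasDerivAt B b z.im) : HasFDerivAt (fun w : ℂ => A w.re * B w.im)
      ((A z.re * b) • Complex.imCLM + (B z.im * a) • Complex.reCLM) z := by
  have h := (hA.hasFDerivAt.comp z Complex.reCLM.hasFDerivAt).mul
    (hB.hasFDerivAt.comp z Complex.imCLM.hasFDerivAt)
  refine h.congr_fderiv ?_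
  ext v
  simp
  ring

/-- the derivative of the modes -/
def sn (k : ℤ) (x : ℝ) : ℝ := -(k * π) * Real.sin (k * π * x)

@[fun_prop]
theorem continuous_sn (k : ℤ) : Continuous (sn k) := by unfold sn; fun_prop

theorem deriv_cs (k : ℤ) (x : ℝ) : HasDerivAt (cs k) (sn k x) x :=
  ((hasDerivAt_id x).const_mul (k * π : ℝ)).cos.congr_deriv (by simp [sn]; ring)

theorem deriv_sn (k : ℤ) (x : ℝ) : HasDerivAt (sn k) (-(k * π) ^ 2 * cs k x) x :=
  ((((hasDerivAt_id x).const_mul (k * π : ℝ)).sin).const_mul (-(k * π : ℝ))).congr_deriv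
    (by simp [cs]; ring)

/-- the moments of a function on the plane -/
def tl (ψ : ℂ → ℝ) (q : ℤ × ℤ) : ℝ := ∫ w : ℂ, md q (w.re, w.im) * ψ w

theorem tl_op {ψ : ℂ → ℝ} (h : Tst ψ) (q : ℤ × ℤ) :
    tl (fun z => lap ψ z + 9 / 5 * ψ z) q = -ev q * tl ψ q := by
  obtain ⟨k, l⟩ := q
  have h1 : ∫ z : ℂ, cs k z.re * cs l z.im * d1 (d1 ψ) z = -(k * π) ^ 2 * tl ψ (k, l) := by
    refine ((h.dir 1).ibp (f' := fun z => sn k z.re * cs l z.im) 1
      (fun z => (hasFDerivAt_sep (deriv_cs k z.re) (deriv_cs l z.im)).differentiableAt)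
      (by fun_prop) fun z => ?_).trans ?_
    · rw [(hasFDerivAt_sep (deriv_cs k z.re) (deriv_cs l z.im)).fderiv]; simp [mul_comm]
    rw [h.ibp (f' := fun z => -(k * π) ^ 2 * (cs k z.re * cs l z.im)) 1
      (fun z => (hasFDerivAt_sep (deriv_sn k z.re) (deriv_cs l z.im)).differentiableAt)
      (by fun_prop) fun z => ?_, neg_neg, tl, ← integral_const_mul]
    · simp only [md, mul_assoc]
    · rw [(hasFDerivAt_sep (deriv_sn k z.re) (deriv_cs l z.im)).fderiv]; simp; ring
  have h2 : ∫ z : ℂ, cs k z.re * cs l z.im * d2 (d2 ψ) z = -(l * π) ^ 2 * tl ψ (k, l) := by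
    refine ((h.dir Complex.I).ibp (f' := fun z => cs k z.re * sn l z.im) Complex.I
      (fun z => (hasFDerivAt_sep (deriv_cs k z.re) (deriv_cs l z.im)).differentiableAt)
      (by fun_prop) fun z => ?_).trans ?_
    · rw [(hasFDerivAt_sep (deriv_cs k z.re) (deriv_cs l z.im)).fderiv]; simp
    rw [h.ibp (f' := fun z => -(l * π) ^ 2 * (cs k z.re * cs l z.im)) Complex.I
      (fun z => (hasFDerivAt_sep (deriv_cs k z.re) (deriv_sn l z.im)).differentiableAt)
      (by fun_prop) fun z => ?_, neg_neg, tl, ← integral_const_mul]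
    · simp only [md, mul_assoc]
    · rw [(hasFDerivAt_sep (deriv_cs k z.re) (deriv_sn l z.im)).fderiv]; simp; ring
  have hc : Continuous fun z : ℂ => cs k z.re * cs l z.im := by fun_prop
  have i1 : Integrable fun z : ℂ => cs k z.re * cs l z.im * d1 (d1 ψ) z :=
    ((h.dir 1).dir 1).int hc
  have i2 : Integrable fun z : ℂ => cs k z.re * cs l z.im * d2 (d2 ψ) z :=
    ((h.dir Complex.I).dir Complex.I).int hc
  have i3 : Integrable fun z : ℂ => 9 / 5 * (cs k z.re * cs l z.im * ψ z) :=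
    (h.int hc).const_mul _
  have e : tl (fun z => lap ψ z + 9 / 5 * ψ z) (k, l) =
      ∫ z : ℂ, (cs k z.re * cs l z.im * d1 (d1 ψ) z + cs k z.re * cs l z.im * d2 (d2 ψ) z +
        9 / 5 * (cs k z.re * cs l z.im * ψ z)) :=
    integral_congr_ae (Eventually.of_forall fun z => by simp only [md, lap]; ring)
  have i4 : Integrable fun z : ℂ => cs k z.re * cs l z.im * d1 (d1 ψ) z +
      cs k z.re * cs l z.im * d2 (d2 ψ) z := i1.add i2
  rw [e, integral_add i4 i3, integral_add i1 i2, h1, h2, integral_const_mul]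
  simp only [ev, tl, md]
  ring

theorem summable_tl {ψ : ℂ → ℝ} (h : Tst ψ) : Summable fun q => |tl ψ q| := by
  set χ := fun z => lap (fun z => lap ψ z + 9 / 5 * ψ z) z + 9 / 5 * (lap ψ z + 9 / 5 * ψ z)
  have hχ : Tst χ := h.op.op
  have hs : Summable fun q => wt q ^ 2 := summable_of_sum_le (fun q => sq_nonneg _) sum_wt_sq
  refine Summable.of_nonneg_of_le (fun q => abs_nonneg _) (fun q => ?_)
    (hs.mul_left (∫ w, ‖χ w‖))
  have h1 : tl χ q = -ev q * (-ev q * tl ψ q) := by rw [← tl_op h, ← tl_op h.op]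
  have h2 : ‖tl χ q‖ ≤ ∫ w, ‖χ w‖ := norm_integral_le_of_norm_le
    (hχ.1.continuous.integrable_of_hasCompactSupport hχ.2).norm
    (Eventually.of_forall fun w => by
      rw [norm_mul]; exact mul_le_of_le_one_left (norm_nonneg _) (abs_md _ _))
  have h3 : 0 < |ev q| := abs_pos.mpr (ev_ne q)
  rw [h1, Real.norm_eq_abs, abs_mul, abs_mul, abs_neg] at h2
  rw [wt, div_pow, one_pow, mul_one_div, le_div_iff₀ (by positivity)]
  linarith

/-- the solution operator -/
def sol (H : ℝ × ℝ → ℝ) (w : ℂ) : ℝ := ser (fun q => hat H q / ev q) (w.re, w.im)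

theorem abs_coef (H : ℝ × ℝ → ℝ) (q : ℤ × ℤ) : |hat H q / ev q| = |hat H q| * wt q := by
  rw [abs_div, wt, mul_one_div]

theorem weak {H : ℝ × ℝ → ℝ} (hH : Integrable H (mu.prod mu))
    (hs : Summable fun q => |hat H q| * wt q) {ψ : ℂ → ℝ} (hψ : Test (box (-1) 2) ψ) :
    Integrable (fun w : ℂ => H (fold1 w.re, fold1 w.im) * ψ w) ∧
      ∫ w, sol H w * (lap ψ w + 9 / 5 * ψ w) = -∫ w : ℂ, H (fold1 w.re, fold1 w.im) * ψ w := by
  have hT : Tst ψ := ⟨hψ.1, hψ.2.1⟩
  obtain ⟨N, hN⟩ := hT.1.continuous.bounded_above_of_compact_support hT.2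
  have h0 : ∀ w, w ∉ box (-1) 2 → ψ w = 0 := fun w hw =>
    image_eq_zero_of_notMem_tsupport fun h => hw (hψ.2.2 h)
  have hf := fun {H} => fold_int (H := H) hT.1.continuous hN h0
  refine ⟨(hf hH).1, ?_⟩
  have e1 : ∀ q, hat (fd ψ) q = tl ψ q := fun q => by
    have h := (hf (H := md q) (Bd.int (M := 1) ⟨(continuous_md q).measurable,
      fun s _ t _ => abs_md _ _⟩)).2
    simp only [md, cs_fold] at h
    simp only [hat, tl, md]
    rw [h]
    simp only [mul_comm]
  have h1 := pars_L1 hH (bd_fd hT.1.continuous hN) (by simp only [e1]; exact summable_tl hT)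
  have h2 := hasSum_ser (c := fun q => hat H q / ev q) (by simp only [abs_coef]; exact hs)
    ((integrable_cx _).mpr (hT.op.1.continuous.integrable_of_hasCompactSupport hT.op.2))
  have e2 : ∀ q, ∫ p, (lap ψ (cx p) + 9 / 5 * ψ (cx p)) * md q p = -ev q * tl ψ q := fun q => by
    rw [← tl_op hT, tl, integral_cx]
    simp only [mul_comm (md _ _)]
    rfl
  have e3 : ∀ q, hat H q / ev q * (-ev q * tl ψ q) = -(tl ψ q * hat H q) := fun q => by
    have := ev_ne q
    field_simp
  simp only [e2, e3] at h2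
  simp only [e1] at h1
  rw [(hf hH).2, ← h2.unique h1.neg, integral_cx]
  simp only [mul_comm (sol _ _)]
  rfl

end Pool.Agent.MP_6b3e96_gt.H75
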